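import Pool.Agent.Q248.TI.Exist

/-!
# The cyclic groups whose largest `t`-independent set has size one, `t` odd

A subset `A` of `ℤ_n` is `t`-independent if the only integer vector `(λ_a)` with
`∑ |λ_a| ≤ t` and `∑ λ_a a = 0` is the zero vector.  For odd `t ≥ 3` we determine all `n` for
which the largest `t`-independent subset of `ℤ_n` has size exactly one.
-/

namespace Pool.Agent.Results.MP_c28122_co.TauOne

open Finset Pool.Agent.Q248.TI

/-- `A ⊆ ℤ_n` is `t`-independent: the only integer coefficients `λ_a` (`a ∈ A`) with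
`∑ |λ_a| ≤ t` and `∑ λ_a a = 0` are `λ_a = 0`. -/
def IsIndep {n : ℕ} (t : ℕ) (A : Finset (ZMod n)) : Prop :=
  ∀ l : ZMod n → ℤ, ∑ a ∈ A, (l a).natAbs ≤ t → ∑ a ∈ A, (l a) • a = 0 → ∀ a ∈ A, l a = 0

/-- `τ_±(ℤ_n,[1,t])`: the largest size of a `t`-independent subset of `ℤ_n`. -/
noncomputable def maxIndep (n t : ℕ) : ℕ :=
  sSup {m | ∃ A : Finset (ZMod n), IsIndep t A ∧ A.card = m}

/-- **Theorem.** For odd `t ≥ 3` put `b = (t² + 2 t - 1) / 2`.  The largest `t`-independent subset
of `ℤ_n` has size one exactly when `t + 1 ≤ n ≤ b`, or `b + 2 ≤ n ≤ b + (t + 1) / 2` and either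
`n` is odd, or `t ≡ 1 (mod 4)` and `4 ∣ n`. -/
theorem result (t : ℕ) (hodd : Odd t) (ht : 3 ≤ t) (n : ℕ) (hn : 0 < n) :
    maxIndep n t = 1 ↔
      (t + 1 ≤ n ∧ n ≤ (t ^ 2 + 2 * t - 1) / 2) ∨
      ((t ^ 2 + 2 * t - 1) / 2 + 2 ≤ n ∧ n ≤ (t ^ 2 + 2 * t - 1) / 2 + (t + 1) / 2 ∧
        (Odd n ∨ (t % 4 = 1 ∧ 4 ∣ n))) := by
  have heq : maxIndep n t = tau n t := by
    unfold maxIndep tau
    congr 1
    ext m
    simp only [Set.mem_ofPred_eq]
    constructor
    · rintro ⟨A, hA, hm⟩
      exact ⟨A, indep_iff.2 hA, hm⟩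
    · rintro ⟨A, hA, hm⟩
      exact ⟨A, indep_iff.1 hA, hm⟩
  rw [heq]
  obtain ⟨s', hs'⟩ := hodd
  obtain ⟨s, hs⟩ : ∃ s, s = s' + 1 := ⟨_, rfl⟩
  have hts : t = 2 * s - 1 := by omega
  have hs2 : 2 ≤ s := by omega
  have hb : (t ^ 2 + 2 * t - 1) / 2 = 2 * s * s - 1 := by
    have : t ^ 2 + 2 * t - 1 = 2 * (2 * s * s - 1) := by
      have h1 : t ^ 2 + 2 * t + 1 = 2 * (2 * s * s) := by
        have : t + 1 = 2 * s := by omega
        calc t ^ 2 + 2 * t + 1 = (t + 1) ^ 2 := by ring
          _ = _ := by rw [this]; ring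
      have : 0 < s * s := by positivity
      omega
    rw [this]; omega
  have hssq : 2 * s ≤ 2 * s * s := by nlinarith
  rw [hb]
  have h2t : 2 ≤ 2 * s - 1 := by omega
  have hle1 : n ≤ t → tau n t = 0 := fun h => tau_zero hn h
  have hge1 : t + 1 ≤ n → 1 ≤ tau n t := fun h => one_le_tau h
  have hle : (∀ a b : ZMod n, ¬ PI t a b) → tau n t ≤ 1 := tau_le_one
  constructor
  · intro h1
    have hnt : t + 1 ≤ n := by
      by_contra hcon
      have := hle1 (by omega)
      omega
    by_cases hnb : n ≤ 2 * s * s - 1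
    · exact Or.inl ⟨hnt, hnb⟩
    · right
      have hn2 : 2 * s * s ≤ n := by omega
      have hlt : n < 2 * s * s + s := by
        by_contra hcon
        have := (PI.of_large (n := n) (by omega : 0 < s) (by omega)).two_le_tau hn h2t
        rw [← hts] at this
        omega
      rcases Nat.even_or_odd s with hse | hso
      · -- s even: n even is impossible
        have hnodd : Odd n := by
          by_contra hcon
          rw [Nat.not_odd_iff_even] at hcon
          have := (PI.of_even (n := n) hse (by omega) hcon hn2).two_le_tau hn h2t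
          rw [← hts] at this
          omega
        have hne : n ≠ 2 * s * s := by
          rintro rfl
          rw [mul_assoc] at hnodd
          exact absurd (even_two_mul (s * s)) (Nat.not_even_iff_odd.2 hnodd)
        exact ⟨by omega, by omega, Or.inl hnodd⟩
      · have hn4 : n % 4 ≠ 2 := by
          intro hcon
          have := (PI.of_two_mod_four (n := n) hso (by obtain ⟨r, hr⟩ := hso; omega) hcon
            hn2).two_le_tau hn h2t
          rw [← hts] at this
          omega
        have hne : n ≠ 2 * s * s := by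
          rintro rfl
          obtain ⟨r, hr⟩ := hso
          apply hn4
          have : 2 * s * s = 4 * (2 * r * r + 2 * r) + 2 := by rw [hr]; ring
          omega
        refine ⟨by omega, by omega, ?_⟩
        rcases Nat.even_or_odd n with ⟨r, hr⟩ | hno
        · right
          obtain ⟨r', hr'⟩ := hso
          exact ⟨by omega, by omega⟩
        · exact Or.inl hno
  · intro h1
    have hnt : t + 1 ≤ n := by
      rcases h1 with h1 | h1
      · exact h1.1
      · omega
    refine le_antisymm (hle ?_) (hge1 hnt)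
    intro a b hPI
    rw [hts] at hPI
    have hcard := hPI.le hn
    rcases h1 with ⟨_, h1⟩ | ⟨h1, h2, h3⟩
    · have : 0 < s * s := by positivity
      omega
    · have hlt : n < 2 * s * s + s := by omega
      rcases h3 with h3 | ⟨h3, h4⟩
      · exact hPI.not_odd hn (by omega) hlt h3
      · exact hPI.not_four hn (by
          rcases Nat.even_or_odd s with ⟨r, hr⟩ | hso
          · omega
          · exact hso) hlt h4

end Pool.Agent.Results.MP_c28122_co.TauOne
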